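import Pool.Agent.H9.K2.Defs2
import Pool.Agent.H32.Dense.Conf

/-!
# LEMMA X (macroscopic jumps of labels use only full rows): the Shannon part

`B0` is the label at the first time, `C` the common data (the times and the cell of the second
position), `B1` the truncated label at the second time, `X` the second position. `X` is described by
its tangential digits `Wd`, coarse normal digits `Nc` and further normal digits `Nd`; `Y` is the
tangential cell of `X`.
-/

set_option autoImplicit false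

namespace Pool.LX

open Finset Real
open Pool.Agent.H49.Ent Pool.Agent.H32.Dense Pool.STK Pool.KA

variable {Ω A B C S U V W : Type} [Fintype Ω]

/-- (XSH) The copy of `X` given `(B1, C)`: entropy given the first label. -/
theorem xsh {p : Ω → ℝ} (hp : ∀ ω, 0 ≤ p ω) (b0 : Ω → A) (b1 : Ω → B) (c : Ω → C) (x : Ω → S) :
    CH p x (fun ω => (b1 ω, c ω)) + CH p b1 (fun ω => (b0 ω, c ω)) ≤
      CH (dbl p (fun ω => (b1 ω, c ω))) (fun w => x w.2) (fun w => (b0 w.1, c w.1)) +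
        CH p b1 (fun ω => (x ω, c ω)) := by
  set b : Ω → B × C := fun ω => (b1 ω, c ω) with hb
  set q : Ω × Ω → ℝ := dbl p b with hq
  have hq0 : ∀ w, 0 ≤ q w := dbl_nonneg hp
  have heq : ∀ w, 0 < q w → b1 w.1 = b1 w.2 ∧ c w.1 = c w.2 := by
    intro w hw
    have h := dbl_eq hp hw
    simpa [hb] using h
  -- independence
  have h1 : CH q (fun w => x w.2) (fun w => (b1 w.1, (b0 w.1, c w.1))) = CH p x b := by
    rw [← CH_dbl_2 (b := b) hp x b0]
    refine CH_congr hq0 ?_ ?_ ?_ ?_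
    · intro w w' _ _ h
      simp only [Prod.mk.injEq] at h
      exact h.1
    · intro w w' _ _ h
      simp only [Prod.mk.injEq] at h
      exact h.1
    · intro w w' hw hw' h
      simp only [Prod.mk.injEq] at h
      have e := heq w hw
      have e' := heq w' hw'
      have g1 : b1 w.2 = b1 w'.2 := by rw [← e.1, ← e'.1]; exact h.1
      have g2 : c w.2 = c w'.2 := by rw [← e.2, ← e'.2]; exact h.2.2
      simp only [hb, Prod.mk.injEq]
      exact ⟨⟨g1, g2⟩, h.2.1⟩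
    · intro w w' hw hw' h
      simp only [hb, Prod.mk.injEq] at h
      have e := heq w hw
      have e' := heq w' hw'
      have g1 : b1 w.1 = b1 w'.1 := by rw [e.1, e'.1]; exact h.1.1
      have g2 : c w.1 = c w'.1 := by rw [e.2, e'.2]; exact h.1.2
      simp only [Prod.mk.injEq]
      exact ⟨g1, h.2, g2⟩
  -- the marginal
  have h2 : CH q (fun w => b1 w.1) (fun w => (b0 w.1, c w.1)) = CH p b1 (fun ω => (b0 ω, c ω)) :=
    (dbl_fst hp).CH b1 (fun ω => (b0 ω, c ω))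
  -- visibility
  have h3 : CH q (fun w => b1 w.1) (fun w => (x w.2, (b0 w.1, c w.1))) ≤
      CH p b1 (fun ω => (x ω, c ω)) := by
    have h4 : CH q (fun w => b1 w.2) (fun w => (x w.2, c w.2)) = CH p b1 (fun ω => (x ω, c ω)) :=
      (dbl_snd hp).CH b1 (fun ω => (x ω, c ω))
    rw [← h4]
    have h5 : CH q (fun w => b1 w.1) (fun w => (x w.2, c w.1)) =
        CH q (fun w => b1 w.2) (fun w => (x w.2, c w.2)) := by
      refine CH_congr hq0 ?_ ?_ ?_ ?_
      · intro w w' hw hw' h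
        simp only [Prod.mk.injEq] at h
        show b1 w.2 = b1 w'.2
        rw [← (heq w hw).1, ← (heq w' hw').1]
        exact h.1
      · intro w w' hw hw' h
        simp only [Prod.mk.injEq] at h
        show b1 w.1 = b1 w'.1
        rw [(heq w hw).1, (heq w' hw').1]
        exact h.1
      · intro w w' hw hw' h
        simp only [Prod.mk.injEq] at h ⊢
        refine ⟨h.1, ?_⟩
        rw [← (heq w hw).2, ← (heq w' hw').2]
        exact h.2
      · intro w w' hw hw' h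
        simp only [Prod.mk.injEq] at h ⊢
        refine ⟨h.1, ?_⟩
        rw [(heq w hw).2, (heq w' hw').2]
        exact h.2
    rw [← h5]
    refine CH_mono_cond hq0 ?_
    intro w w' _ _ h
    simp only [Prod.mk.injEq] at h ⊢
    exact ⟨h.1, h.2.2⟩
  -- the two chain rules
  have h6 := CH_chain hq0 (fun w => x w.2) (fun w => b1 w.1) (fun w => (b0 w.1, c w.1))
  have h7 := CH_chain hq0 (fun w => b1 w.1) (fun w => x w.2) (fun w => (b0 w.1, c w.1))
  have h8 : CH q (fun w => (x w.2, b1 w.1)) (fun w => (b0 w.1, c w.1)) =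
      CH q (fun w => (b1 w.1, x w.2)) (fun w => (b0 w.1, c w.1)) := by
    refine CH_congr hq0 ?_ ?_ (fun _ _ _ _ h => h) (fun _ _ _ _ h => h)
    · intro w w' _ _ h
      simp only [Prod.mk.injEq] at h ⊢
      tauto
    · intro w w' _ _ h
      simp only [Prod.mk.injEq] at h ⊢
      tauto
  linarith

/-- Counting with a bound on the number of values. -/
theorem CH_le_log {p : Ω → ℝ} (hp : IsLaw p) (x : Ω → S) (w : Ω → U) (F : U → Finset S) {M : ℝ}
    (hF : ∀ ω, 0 < p ω → x ω ∈ F (w ω)) (hM : ∀ ω, 0 < p ω → ((F (w ω)).card : ℝ) ≤ M) :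
    CH p x w ≤ Real.log M := by
  have h0 := hp.nonneg
  refine (CH_le_card h0 hp.sum_one x w F hF).trans ?_
  refine (Ex_mono h0 (g := fun _ => Real.log M) fun ω hω => ?_).trans
    (Ex_const hp.sum_one _).le
  have hc : 0 < (F (w ω)).card := Finset.card_pos.mpr ⟨_, hF ω hω⟩
  exact Real.log_le_log (by exact_mod_cast hc) (hM ω hω)

/-- (XCT) The second label is at least as random as the cell. -/
theorem xct {p : Ω → ℝ} (hp : IsLaw p) (b0 : Ω → A) (b1 : Ω → B) (c : Ω → C) (y : Ω → V)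
    (G : B → A → C → Finset V) {M : ℝ}
    (hG : ∀ ω, 0 < p ω → y ω ∈ G (b1 ω) (b0 ω) (c ω))
    (hM : ∀ ω, 0 < p ω → ((G (b1 ω) (b0 ω) (c ω)).card : ℝ) ≤ M) :
    CH p y (fun ω => (b0 ω, c ω)) ≤ CH p b1 (fun ω => (b0 ω, c ω)) + Real.log M := by
  have h1 := CH_le_add hp.nonneg y b1 (fun ω => (b0 ω, c ω))
  have h2 := CH_le_log hp y (fun ω => (b1 ω, (b0 ω, c ω))) (fun u => G u.1 u.2.1 u.2.2) hG hM
  linarith

/-- (XUP) Upper bound for the copy. -/
theorem xup {p : Ω → ℝ} (hp : IsLaw p) (b0 : Ω → A) (b1 : Ω → B) (c : Ω → C) (x : Ω → S)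
    (wd : Ω → U) (nc : Ω → V) (nd : Ω → W)
    (hx : Det p (fun ω => (nd ω, (nc ω, (wd ω, c ω)))) x)
    (F : A → U → C → Finset V) {M : ℝ}
    (hF : ∀ ω ω', 0 < p ω → 0 < p ω' → b1 ω = b1 ω' → c ω = c ω' → nc ω' ∈ F (b0 ω) (wd ω') (c ω))
    (hM : ∀ ω ω', 0 < p ω → 0 < p ω' → b1 ω = b1 ω' → c ω = c ω' →
      ((F (b0 ω) (wd ω') (c ω)).card : ℝ) ≤ M) :
    CH (dbl p (fun ω => (b1 ω, c ω))) (fun w => x w.2) (fun w => (b0 w.1, c w.1)) ≤
      CH p wd c + Real.log M + CH p nd (fun ω => (nc ω, (wd ω, c ω))) := by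
  have h0 := hp.nonneg
  set b : Ω → B × C := fun ω => (b1 ω, c ω) with hb
  set q : Ω × Ω → ℝ := dbl p b with hq
  have hq0 : ∀ w, 0 ≤ q w := dbl_nonneg h0
  have hs : Marg q p (fun w => w.2) := dbl_snd h0
  have hf : Marg q p (fun w => w.1) := dbl_fst h0
  have hql : IsLaw q := ⟨hq0, by rw [hs.sum]; exact hp.sum_one⟩
  have heq : ∀ w, 0 < q w → b1 w.1 = b1 w.2 ∧ c w.1 = c w.2 := by
    intro w hw
    have h := dbl_eq h0 hw
    simpa [hb] using h
  have hpos : ∀ w, 0 < q w → 0 < p w.1 ∧ 0 < p w.2 := fun w hw =>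
    ⟨hf.pos hq0 hw, hs.pos hq0 hw⟩
  -- chain rule
  have h1 := CH_le_add hq0 (fun w => x w.2) (fun w => wd w.2) (fun w => (b0 w.1, c w.1))
  have h2 := CH_le_add hq0 (fun w => x w.2) (fun w => nc w.2)
    (fun w => (wd w.2, (b0 w.1, c w.1)))
  have h3 : CH q (fun w => wd w.2) (fun w => (b0 w.1, c w.1)) ≤ CH p wd c := by
    have h4 : CH q (fun w => wd w.2) (fun w => c w.2) = CH p wd c := hs.CH wd c
    rw [← h4]
    refine CH_mono_cond hq0 ?_
    intro w w' hw hw' h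
    simp only [Prod.mk.injEq] at h
    show c w.2 = c w'.2
    rw [← (heq w hw).2, ← (heq w' hw').2]
    exact h.2
  have h5 : CH q (fun w => nc w.2) (fun w => (wd w.2, (b0 w.1, c w.1))) ≤ Real.log M :=
    CH_le_log hql (fun w => nc w.2) (fun w => (wd w.2, (b0 w.1, c w.1)))
      (fun u => F u.2.1 u.1 u.2.2)
      (fun w hw => hF w.1 w.2 (hpos w hw).1 (hpos w hw).2 (heq w hw).1 (heq w hw).2)
      (fun w hw => hM w.1 w.2 (hpos w hw).1 (hpos w hw).2 (heq w hw).1 (heq w hw).2)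
  have h6 : CH q (fun w => x w.2) (fun w => (nc w.2, (wd w.2, (b0 w.1, c w.1)))) ≤
      CH p nd (fun ω => (nc ω, (wd ω, c ω))) := by
    have h7 : CH q (fun w => nd w.2) (fun w => (nc w.2, (wd w.2, c w.2))) =
        CH p nd (fun ω => (nc ω, (wd ω, c ω))) := hs.CH nd (fun ω => (nc ω, (wd ω, c ω)))
    rw [← h7]
    refine (CH_mono_left hq0 (X' := fun w => nd w.2) ?_).trans (CH_mono_cond hq0 ?_)
    · intro w w' hw hw' h
      simp only [Prod.mk.injEq] at h
      refine hx w.2 w'.2 (hpos w hw).2 (hpos w' hw').2 ?_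
      simp only [Prod.mk.injEq]
      refine ⟨h.1, h.2.1, h.2.2.1, ?_⟩
      rw [← (heq w hw).2, ← (heq w' hw').2]
      exact h.2.2.2.2
    · intro w w' hw hw' h
      simp only [Prod.mk.injEq] at h ⊢
      refine ⟨h.1, h.2.1, ?_⟩
      rw [← (heq w hw).2, ← (heq w' hw').2]
      exact h.2.2.2
  linarith

/-- LEMMA X, Shannon part, all together. -/
theorem lx_shannon {D : Type} {p : Ω → ℝ} (hp : IsLaw p) (b0 : Ω → A) (b1 : Ω → B) (c : Ω → C)
    (x : Ω → S) (y : Ω → D) (wd : Ω → U) (nc : Ω → V) (nd : Ω → W)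
    (hx : Det p (fun ω => (nd ω, (nc ω, (wd ω, c ω)))) x)
    (F : A → U → C → Finset V) {M₀ : ℝ}
    (hF : ∀ ω ω', 0 < p ω → 0 < p ω' → b1 ω = b1 ω' → c ω = c ω' → nc ω' ∈ F (b0 ω) (wd ω') (c ω))
    (hM₀ : ∀ ω ω', 0 < p ω → 0 < p ω' → b1 ω = b1 ω' → c ω = c ω' →
      ((F (b0 ω) (wd ω') (c ω)).card : ℝ) ≤ M₀)
    (G : B → A → C → Finset D) {M₁ : ℝ}
    (hG : ∀ ω, 0 < p ω → y ω ∈ G (b1 ω) (b0 ω) (c ω))
    (hM₁ : ∀ ω, 0 < p ω → ((G (b1 ω) (b0 ω) (c ω)).card : ℝ) ≤ M₁) :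
    CH p x (fun ω => (b1 ω, c ω)) + CH p y (fun ω => (b0 ω, c ω)) ≤
      CH p wd c + CH p nd (fun ω => (nc ω, (wd ω, c ω))) +
        (Real.log M₀ + Real.log M₁ + CH p b1 (fun ω => (x ω, c ω))) := by
  have h1 := xsh hp.nonneg b0 b1 c x
  have h2 := xup hp b0 b1 c x wd nc nd hx F hF hM₀
  have h3 := xct hp b0 b1 c y G hG hM₁
  linarith

end Pool.LX
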