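import Pool.Agent.H40.LX.Slope
import Pool.Agent.H82.QQ.XGC

/-!
# LEMMA X: cells of the crossing set

The number of cells of side `2 ^ (-j)` of the unit cube which contain a point `u` such that, for
some polynomial `P` which is `2 ^ (-j)`-close to a known polynomial `R`, the Taylor polynomial of
`P` at `u` has a large layer `σ` and a layer `σ - 1` of size `2 ^ (-j)`.
-/

set_option autoImplicit false

namespace Pool.LX

open Finset MvPolynomial Pool.KAL

variable {k : ℕ}

lemma totalDegree_dl_le (L : List (Fin k)) (P : MvPolynomial (Fin k) ℝ) :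
    (dl L P).totalDegree ≤ P.totalDegree := by
  induction L with
  | nil => exact le_rfl
  | cons i L ih =>
    rw [dl_cons]
    refine le_trans ?_ ih
    refine Finset.sup_le ?_
    intro b hb
    rw [mem_support_iff, coeff_pderiv] at hb
    have h1 : b + Finsupp.single i 1 ∈ (dl L P).support := by
      rw [mem_support_iff]
      intro h
      exact hb (by rw [h, zero_mul])
    have h2 := le_totalDegree h1
    refine le_trans ?_ h2
    have h3 : ((b + Finsupp.single i 1).sum fun _ e => e) = b.degree + 1 := by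
      have : ((b + Finsupp.single i 1).sum fun _ e => e) = (b + Finsupp.single i 1).degree := rfl
      rw [this, map_add, Finsupp.degree_single]
    rw [h3]
    exact Nat.le_succ _

lemma coefSum_dl_le (L : List (Fin k)) (P : MvPolynomial (Fin k) ℝ) {D : ℕ}
    (hD : P.totalDegree ≤ D) : coefSum (dl L P) ≤ (D : ℝ) ^ L.length * coefSum P := by
  induction L with
  | nil => simp
  | cons i L ih =>
    rw [dl_cons, List.length_cons, pow_succ]
    have h1 := coefSum_pderiv_le (dl L P) i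
    have h2 : ((dl L P).totalDegree : ℝ) ≤ D := by
      exact_mod_cast (totalDegree_dl_le L P).trans hD
    have h3 := coefSum_nonneg (dl L P)
    calc coefSum (pderiv i (dl L P)) ≤ (dl L P).totalDegree * coefSum (dl L P) := h1
      _ ≤ D * ((D : ℝ) ^ L.length * coefSum P) :=
        mul_le_mul h2 ih h3 (Nat.cast_nonneg _)
      _ = (D : ℝ) ^ L.length * D * coefSum P := by ring

lemma dl_sub (L : List (Fin k)) (P Q : MvPolynomial (Fin k) ℝ) :
    dl L (P - Q) = dl L P - dl L Q := by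
  induction L with
  | nil => rfl
  | cons i L ih => rw [dl_cons, ih, map_sub, dl_cons, dl_cons]

/-- Polynomials are Lipschitz on the unit cube. -/
lemma lip (P : MvPolynomial (Fin k) ℝ) {D : ℕ} (hD : P.totalDegree ≤ D) {x y : Fin k → ℝ}
    (hx : ∀ l, 0 ≤ x l ∧ x l ≤ 1) (hy : ∀ l, 0 ≤ y l ∧ y l ≤ 1) {r : ℝ}
    (hr : ∀ l, |x l - y l| ≤ r) (hr0 : 0 ≤ r) :
    |eval x P - eval y P| ≤ 2 * 2 ^ D * coefSum P * r := by
  have hc := coefSum_nonneg P
  have hD1 : (1 : ℝ) ≤ 2 ^ D := one_le_pow₀ (by norm_num)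
  rcases le_or_gt r 1 with h1 | h1
  · -- the shifted polynomial at radius r
    rcases hr0.eq_or_lt with h0 | h0
    · have : x = y := by
        funext l
        have h2 := hr l
        rw [← h0] at h2
        have h3 : |x l - y l| = 0 := le_antisymm h2 (abs_nonneg _)
        linarith [abs_eq_zero.1 h3]
      rw [this, sub_self, abs_zero, ← h0]
      simp
    · set u : Fin k → ℝ := fun l => (y l - x l) / r with hu
      have hu1 : ∀ l, |u l| ≤ 1 := by
        intro l
        rw [hu]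
        simp only
        rw [abs_div, abs_of_pos h0, div_le_one h0, abs_sub_comm]
        exact hr l
      have e1 : eval y P = eval u (shf P r x) := by
        rw [eval_shf]
        congr 2
        funext l
        rw [hu]
        field_simp
        ring
      have e2 : eval x P = coeff 0 (shf P r x) := by
        rw [← eval_zero_eq, eval_shf]
        congr 2
        funext l
        ring
      set Q := shf P r x with hQ
      have e3 : |eval u Q - coeff 0 Q| ≤ coefSum (Q - C (coeff 0 Q)) := by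
        have h := abs_eval_le_coefSum (Q - C (coeff 0 Q)) u hu1
        rwa [map_sub, eval_C] at h
      have hQe : ∀ α : Fin k →₀ ℕ, α ≠ 0 → |coeff α Q| ≤ r * |coeff α (shf P 1 x)| := by
        intro α hα
        have e : Q = shf (shf P 1 x) r (fun _ => 0) := by
          rw [hQ, ← shf_scale, one_mul]
        rw [e, coeff_shf_zero, abs_mul, abs_of_nonneg (by positivity)]
        refine mul_le_mul_of_nonneg_right ?_ (abs_nonneg _)
        have h2 : 1 ≤ α.degree := by
          have : α.degree ≠ 0 := by rwa [Ne, Finsupp.degree_eq_zero_iff]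
          omega
        calc r ^ α.degree ≤ r ^ 1 := pow_le_pow_of_le_one h0.le h1 h2
          _ = r := pow_one r
      have h4 : coefSum (Q - C (coeff 0 Q)) ≤ r * coefSum (shf P 1 x) := by
        classical
        set s := (Q - C (coeff 0 Q)).support ∪ (shf P 1 x).support with hs
        rw [coefSum_eq_of_subset _ s Finset.subset_union_left,
          coefSum_eq_of_subset (shf P 1 x) s Finset.subset_union_right, Finset.mul_sum]
        refine Finset.sum_le_sum fun α _ => ?_
        by_cases hα : α = 0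
        · subst hα
          rw [coeff_sub, coeff_C, if_pos rfl, sub_self, abs_zero]
          positivity
        · rw [coeff_sub, coeff_C, if_neg (Ne.symm hα), sub_zero]
          exact hQe α hα
      have h5 : coefSum (shf P 1 x) ≤ 2 ^ D * coefSum P := by
        have h6 := Psi_le_of_near P 1 (by norm_num) (fun _ => 0) x (by
          intro l
          rw [sub_zero, abs_of_nonneg (hx l).1]
          exact (hx l).2)
        unfold Psi at h6
        rw [shf_zero_one] at h6
        refine h6.trans (mul_le_mul_of_nonneg_right ?_ hc)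
        exact pow_le_pow_right₀ (by norm_num) hD
      rw [e1, e2, abs_sub_comm]
      calc |eval u Q - coeff 0 Q| ≤ r * coefSum (shf P 1 x) := e3.trans h4
        _ ≤ r * (2 ^ D * coefSum P) := mul_le_mul_of_nonneg_left h5 h0.le
        _ ≤ 2 * 2 ^ D * coefSum P * r := by
          have : 0 ≤ 2 ^ D * coefSum P * r := by positivity
          nlinarith
  · have h2 := abs_eval_le_coefSum P x (fun l => by
      rw [abs_of_nonneg (hx l).1]; exact (hx l).2)
    have h3 := abs_eval_le_coefSum P y (fun l => by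
      rw [abs_of_nonneg (hy l).1]; exact (hy l).2)
    have h4 : |eval x P - eval y P| ≤ 2 * coefSum P := by
      have := abs_sub (eval x P) (eval y P)
      linarith
    refine h4.trans ?_
    have h5 : (1 : ℝ) ≤ 2 ^ D * r := by nlinarith
    nlinarith

/-- **Cells near a zero set with large gradient**, for the derivative `∂_L` of a known
polynomial. -/
theorem cells_L (k D : ℕ) (A c Λ : ℝ) (hk : 0 < k) (hA : 0 ≤ A) (hc : 0 < c) (hΛ : 0 ≤ Λ) :
    ∃ C : ℝ, 0 ≤ C ∧ ∀ (j : ℕ) (R : MvPolynomial (Fin k) ℝ), R.totalDegree ≤ D →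
      coefSum R ≤ Λ → ∀ L : List (Fin k), L.length ≤ D → ∀ Z : Finset (Fin k → ℤ),
      (∀ n ∈ Z, ∃ u, (∀ l, 0 ≤ u l ∧ u l ≤ 1) ∧ (∀ l, n l = ⌊(2 : ℝ) ^ j * u l⌋) ∧
        |eval u (dl L R)| ≤ A * ((2 : ℝ) ^ j)⁻¹ ∧ ∃ i, c ≤ |eval u (pderiv i (dl L R))|) →
      (Z.card : ℝ) ≤ C * ((2 : ℝ) ^ j) ^ (k - 1) := by
  set Λ' : ℝ := 2 * 2 ^ D * ((D + 1 : ℝ) ^ (D + 1) * Λ) with hΛ'
  obtain ⟨C, hC, h⟩ := Pool.QQ.xgc k D A c Λ' (2 * D / c) hk hA hc (by positivity) (by positivity)
  refine ⟨C, hC, ?_⟩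
  intro j R hR hRc L hL Z hZ
  have hb : ∀ L' : List (Fin k), L'.length ≤ D + 1 →
      coefSum (dl L' R) ≤ (D + 1 : ℝ) ^ (D + 1) * Λ := by
    intro L' hL'
    have h1 := coefSum_dl_le L' R (D := D + 1) (by omega)
    refine h1.trans ?_
    push_cast
    refine mul_le_mul ?_ hRc (coefSum_nonneg _) (by positivity)
    exact pow_le_pow_right₀ (by
      have : (0 : ℝ) ≤ D := Nat.cast_nonneg _
      linarith) hL'
  refine h j (fun u => eval u (dl L R)) (fun i u => eval u (pderiv i (dl L R))) ?_ ?_ Z hZ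
  · intro x y hx hy r hr
    have hr0 : 0 ≤ r := (abs_nonneg _).trans (hr ⟨0, hk⟩)
    refine ⟨?_, fun i => ?_⟩
    · have h1 := lip (dl L R) ((totalDegree_dl_le L R).trans hR) hx hy hr hr0
      refine h1.trans (mul_le_mul_of_nonneg_right ?_ hr0)
      exact mul_le_mul_of_nonneg_left (hb L (by omega)) (by positivity)
    · have h1 := lip (dl (i :: L) R) ((totalDegree_dl_le (i :: L) R).trans hR) hx hy hr hr0
      refine h1.trans (mul_le_mul_of_nonneg_right ?_ hr0)
      exact mul_le_mul_of_nonneg_left (hb (i :: L) (by rw [List.length_cons]; omega))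
        (by positivity)
  · intro i x _ a ha
    obtain ⟨S, hS, h1⟩ := Pool.QQ.centers_poly (dl L R) D ((totalDegree_dl_le L R).trans hR) c hc
      i x a ha
    exact ⟨S, hS, fun t _ _ h2 h3 => h1 t h2 h3⟩

/-- **Row XLM, counting.** The cells which contain a crossing point of order `σ`. -/
theorem xcell (k D : ℕ) (E κ Λ : ℝ) (hk : 0 < k) (hE : 0 ≤ E) (hκ : 0 < κ) (hΛ : 0 ≤ Λ) :
    ∃ C : ℝ, 0 ≤ C ∧ ∀ (j : ℕ) (R : MvPolynomial (Fin k) ℝ), R.totalDegree ≤ D →
      coefSum R ≤ Λ → ∀ Z : Finset (Fin k → ℤ),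
      (∀ n ∈ Z, ∃ u, (∀ l, 0 ≤ u l ∧ u l ≤ 1) ∧ (∀ l, n l = ⌊(2 : ℝ) ^ j * u l⌋) ∧
        ∃ P : MvPolynomial (Fin k) ℝ, P.totalDegree ≤ D ∧ coefSum (P - R) ≤ E * ((2 : ℝ) ^ j)⁻¹ ∧
          ∃ σ, 1 ≤ σ ∧ σ ≤ D ∧ κ ≤ lay (shf P 1 u) σ ∧
            lay (shf P 1 u) (σ - 1) ≤ E * ((2 : ℝ) ^ j)⁻¹) →
      (Z.card : ℝ) ≤ C * ((2 : ℝ) ^ j) ^ (k - 1) := by
  classical
  obtain ⟨N, hN, hX⟩ := xsl k D
  set G : ℝ := (D + 1 : ℝ) ^ (D + 1) with hG
  have hG0 : 0 < G := by positivity
  set c : ℝ := κ / N / 2 with hc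
  have hc0 : 0 < c := by positivity
  obtain ⟨C, hC, h⟩ := cells_L k D (2 * G * E) c Λ hk (by positivity) hc0 hΛ
  -- the lists
  set Ls : Finset (List (Fin k)) := (Finset.range (D + 1)).biUnion
    (fun m => (Finset.univ : Finset (Fin m → Fin k)).image List.ofFn) with hLs
  have hmem : ∀ L : List (Fin k), L.length ≤ D → L ∈ Ls := by
    intro L hL
    rw [hLs, Finset.mem_biUnion]
    refine ⟨L.length, Finset.mem_range.2 (by omega), Finset.mem_image.2 ⟨L.get, Finset.mem_univ _, ?_⟩⟩
    exact List.ofFn_get L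
  refine ⟨Ls.card * C + 2 ^ k * (G * E / c), by positivity, ?_⟩
  intro j R hR hRc Z hZ
  have hpos : (0 : ℝ) < 2 ^ j := by positivity
  have hpk : (0 : ℝ) ≤ ((2 : ℝ) ^ j) ^ (k - 1) := by positivity
  rcases le_or_gt (G * E * ((2 : ℝ) ^ j)⁻¹) c with hcase | hcase
  · have hcov : Z ⊆ Ls.biUnion (fun L => Z.filter (fun n => L.length ≤ D ∧
        ∃ u, (∀ l, 0 ≤ u l ∧ u l ≤ 1) ∧ (∀ l, n l = ⌊(2 : ℝ) ^ j * u l⌋) ∧
        |eval u (dl L R)| ≤ 2 * G * E * ((2 : ℝ) ^ j)⁻¹ ∧
          ∃ i, c ≤ |eval u (pderiv i (dl L R))|)) := by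
      intro n hn
      obtain ⟨u, hu, hnu, P, hP, hPR, σ, h1, h2, h3, h4⟩ := hZ n hn
      obtain ⟨L, hL, hL1, i, hL2⟩ := hX P u σ κ _ hP h1 h2 hκ h3 h4
      have hLD : L.length ≤ D := by omega
      rw [Finset.mem_biUnion]
      refine ⟨L, hmem L hLD, Finset.mem_filter.2 ⟨hn, hLD, u, hu, hnu, ?_, i, ?_⟩⟩
      all_goals
        have hu1 : ∀ l, |u l| ≤ 1 := fun l => by
          rw [abs_of_nonneg (hu l).1]; exact (hu l).2
        have hDP : (P - R).totalDegree ≤ D := by
          refine (totalDegree_sub _ _).trans (max_le hP hR)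
        have hdiff : ∀ L' : List (Fin k), L'.length ≤ D + 1 →
            |eval u (dl L' P) - eval u (dl L' R)| ≤ G * E * ((2 : ℝ) ^ j)⁻¹ := by
          intro L' hL'
          have g1 := abs_eval_le_coefSum (dl L' (P - R)) u hu1
          rw [dl_sub, map_sub, ← dl_sub] at g1
          refine g1.trans ((coefSum_dl_le L' (P - R) (D := D + 1) (by omega)).trans ?_)
          push_cast
          rw [mul_assoc]
          refine mul_le_mul ?_ hPR (coefSum_nonneg _) hG0.le
          exact pow_le_pow_right₀ (by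
            have : (0 : ℝ) ≤ D := Nat.cast_nonneg _
            linarith) hL'
      · have g1 := hdiff L (by omega)
        have g2 : (D : ℝ) ^ D ≤ G := by
          rw [hG]
          calc (D : ℝ) ^ D ≤ (D + 1 : ℝ) ^ D :=
                pow_le_pow_left₀ (Nat.cast_nonneg _) (by linarith) _
            _ ≤ (D + 1 : ℝ) ^ (D + 1) := by
              refine pow_le_pow_right₀ ?_ (Nat.le_succ _)
              have : (0 : ℝ) ≤ D := Nat.cast_nonneg _
              linarith
        have g3 : (D : ℝ) ^ D * (E * ((2 : ℝ) ^ j)⁻¹) ≤ G * (E * ((2 : ℝ) ^ j)⁻¹) :=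
          mul_le_mul_of_nonneg_right g2 (by positivity)
        have g4 := abs_sub_abs_le_abs_sub (eval u (dl L R)) (eval u (dl L P))
        rw [abs_sub_comm] at g4
        nlinarith
      · have g1 := hdiff (i :: L) (by rw [List.length_cons]; omega)
        rw [dl_cons, dl_cons] at g1
        have g4 := abs_sub_abs_le_abs_sub (eval u (pderiv i (dl L P))) (eval u (pderiv i (dl L R)))
        have g5 : κ / N = 2 * c := by rw [hc]; ring
        rw [g5] at hL2
        linarith
    have h1 : (Z.card : ℝ) ≤ ∑ L ∈ Ls, (C * ((2 : ℝ) ^ j) ^ (k - 1)) := by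
      have h2 := (Finset.card_le_card hcov).trans Finset.card_biUnion_le
      have h3 : (Z.card : ℝ) ≤ ∑ L ∈ Ls, ((Z.filter (fun n => L.length ≤ D ∧
        ∃ u, (∀ l, 0 ≤ u l ∧ u l ≤ 1) ∧ (∀ l, n l = ⌊(2 : ℝ) ^ j * u l⌋) ∧
        |eval u (dl L R)| ≤ 2 * G * E * ((2 : ℝ) ^ j)⁻¹ ∧
          ∃ i, c ≤ |eval u (pderiv i (dl L R))|)).card : ℝ) := by exact_mod_cast h2
      refine h3.trans (Finset.sum_le_sum fun L _ => ?_)
      by_cases hLD : L.length ≤ D
      · refine h j R hR hRc L hLD _ ?_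
        intro n hn
        obtain ⟨_, u, g⟩ := (Finset.mem_filter.1 hn).2
        exact ⟨u, g⟩
      · rw [Finset.filter_false_of_mem]
        · simp only [Finset.card_empty, Nat.cast_zero]
          positivity
        · intro n _ hh
          exact hLD hh.1
    rw [Finset.sum_const, nsmul_eq_mul] at h1
    have h2 : (0 : ℝ) ≤ 2 ^ k * (G * E / c) * ((2 : ℝ) ^ j) ^ (k - 1) := by positivity
    rw [add_mul]
    nlinarith
  · -- coarse cells
    have hbox : ∀ n ∈ Z, ∀ l, 0 ≤ n l ∧ n l ≤ (2 ^ j : ℕ) := by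
      intro n hn l
      obtain ⟨u, hu, hnu, _⟩ := hZ n hn
      rw [hnu l]
      constructor
      · exact Int.floor_nonneg.2 (mul_nonneg hpos.le (hu l).1)
      · refine Int.floor_le_iff.2 ?_
        push_cast
        nlinarith [(hu l).2]
    have h1 : (Z.card : ℝ) ≤ (((2 ^ j : ℕ) : ℝ) + 1) ^ k := by
      exact_mod_cast Pool.QQ.cells_all (2 ^ j) Z hbox
    push_cast at h1
    have hone : (1 : ℝ) ≤ 2 ^ j := one_le_pow₀ (by norm_num)
    have h2 : ((2 : ℝ) ^ j + 1) ^ k ≤ (2 * (2 : ℝ) ^ j) ^ k :=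
      pow_le_pow_left₀ (by positivity) (by linarith) _
    have h3 : (2 : ℝ) ^ j ≤ G * E / c := by
      rw [le_div_iff₀ hc0]
      have h4 : c * 2 ^ j < G * E := by
        calc c * 2 ^ j < G * E * ((2 : ℝ) ^ j)⁻¹ * 2 ^ j := mul_lt_mul_of_pos_right hcase hpos
          _ = G * E := by field_simp
      linarith
    have h5 : (2 * (2 : ℝ) ^ j) ^ k = 2 ^ k * ((2 : ℝ) ^ j * ((2 : ℝ) ^ j) ^ (k - 1)) := by
      rw [mul_pow, ← pow_succ']
      congr 2
      omega
    have h6 : (2 : ℝ) ^ k * ((2 : ℝ) ^ j * ((2 : ℝ) ^ j) ^ (k - 1)) ≤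
        2 ^ k * (G * E / c) * ((2 : ℝ) ^ j) ^ (k - 1) := by
      rw [mul_assoc]
      exact mul_le_mul_of_nonneg_left (mul_le_mul_of_nonneg_right h3 (by positivity))
        (by positivity)
    have h7 : (0 : ℝ) ≤ Ls.card * C * ((2 : ℝ) ^ j) ^ (k - 1) := by positivity
    rw [add_mul]
    linarith

end Pool.LX
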