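import Mathlib

/-!
# LEMMA X: covering by intervals (row XCOV)
-/

set_option autoImplicit false

namespace Pool.LX

open Finset Real

/-- Geometric covering: `M` is the cumulated deficit of the rows. If on the piece of slope `σ` which
ends at height `s` all intervals `(s - σ z, s - (σ - 1) z]`, `z ≤ Z`, have deficit at most `E`, then
the whole piece has deficit at most `n E`, except its last part of length `σ Z ((σ-1)/σ)^n`. -/
theorem xcov (M : ℝ → ℝ) (σ s Z E : ℝ) (hσ : 1 ≤ σ) (hZ : 0 ≤ Z)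
    (h : ∀ z, 0 ≤ z → z ≤ Z → M (s - (σ - 1) * z) - M (s - σ * z) ≤ E) (n : ℕ) :
    M (s - σ * Z * ((σ - 1) / σ) ^ n) - M (s - σ * Z) ≤ n * E := by
  have hσ0 : 0 < σ := by linarith
  have hr0 : 0 ≤ (σ - 1) / σ := div_nonneg (by linarith) hσ0.le
  have hr1 : (σ - 1) / σ ≤ 1 := by
    rw [div_le_one hσ0]
    linarith
  induction n with
  | zero => simp
  | succ n ih =>
    have h1 := h (Z * ((σ - 1) / σ) ^ n) (by positivity)
      (by
        have := pow_le_one₀ (n := n) hr0 hr1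
        nlinarith)
    have e1 : s - σ * (Z * ((σ - 1) / σ) ^ n) = s - σ * Z * ((σ - 1) / σ) ^ n := by ring
    have e2 : s - (σ - 1) * (Z * ((σ - 1) / σ) ^ n) = s - σ * Z * ((σ - 1) / σ) ^ (n + 1) := by
      rw [pow_succ]
      field_simp
    rw [e1, e2] at h1
    push_cast
    linarith

/-- The covering with a Lipschitz bound for the last part. -/
theorem xcov_lip (M : ℝ → ℝ) (σ s Z E Λ B : ℝ) (hσ : 1 ≤ σ) (hZ : 0 ≤ Z) (hΛ : 0 ≤ Λ)
    (h : ∀ z, 0 ≤ z → z ≤ Z → M (s - (σ - 1) * z) - M (s - σ * z) ≤ E)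
    (hM : ∀ u v, u ≤ v → M v - M u ≤ Λ * (v - u) + B) (n : ℕ) :
    M s - M (s - σ * Z) ≤ n * E + Λ * (σ * Z) * Real.exp (-(n / σ)) + B := by
  have hσ0 : 0 < σ := by linarith
  have h1 := xcov M σ s Z E hσ hZ h n
  have hr0 : 0 ≤ (σ - 1) / σ := div_nonneg (by linarith) hσ0.le
  have h2 := hM (s - σ * Z * ((σ - 1) / σ) ^ n) s (by
    have : 0 ≤ σ * Z * ((σ - 1) / σ) ^ n := by positivity
    linarith)
  have h3 : ((σ - 1) / σ) ^ n ≤ Real.exp (-(n / σ)) := by
    have h4 : (σ - 1) / σ ≤ Real.exp (-(1 / σ)) := by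
      have := Real.add_one_le_exp (-(1 / σ))
      have e : (σ - 1) / σ = -(1 / σ) + 1 := by
        field_simp
        ring
      rw [e]
      exact this
    calc ((σ - 1) / σ) ^ n ≤ Real.exp (-(1 / σ)) ^ n := pow_le_pow_left₀ hr0 h4 n
      _ = Real.exp (-(n / σ)) := by
        rw [← Real.exp_nat_mul]
        congr 1
        ring
  have h5 : Λ * (s - (s - σ * Z * ((σ - 1) / σ) ^ n)) ≤ Λ * (σ * Z) * Real.exp (-(n / σ)) := by
    have h6 : 0 ≤ Λ * (σ * Z) := by positivity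
    have := mul_le_mul_of_nonneg_left h3 h6
    nlinarith
  linarith

end Pool.LX
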