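import Pool.Agent.H40.LX.Cov

/-!
# LEMMA X: the whole Newton polygon (row XLM)

`s q = min_{a ∈ S} (a q + ℓ a)` is the exponent of the difference of the two labels on the ball of
radius `2 ^ (-q)`; `M` is the cumulated deficit of the rows. If at every point `q` of a piece of
slope `σ` with distance `z` to the end of the piece the rows `(s q, s q + z]` have deficit at most
`E`, then all rows between `s 0` and `s Q` have small deficit.
-/

set_option autoImplicit false

namespace Pool.LX

open Finset Real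

/-- A concave piecewise linear function: total increase from the increase on the pieces. -/
theorem pieces (M s : ℝ → ℝ) (ℓ : ℕ → ℝ) (bd : ℝ) (hbd : 0 ≤ bd) : ∀ (n : ℕ) (S : Finset ℕ),
    S.card = n → S.Nonempty → ∀ u v : ℝ, u ≤ v →
    (∀ q, u ≤ q → q ≤ v → (∃ a ∈ S, s q = a * q + ℓ a) ∧ ∀ a ∈ S, s q ≤ a * q + ℓ a) →
    (∀ a ∈ S, ∀ α β : ℝ, u ≤ α → α ≤ β → β ≤ v → (∀ q, α ≤ q → q ≤ β → s q = a * q + ℓ a) →
      M (s β) - M (s α) ≤ bd) →
    M (s v) - M (s u) ≤ n * bd := by
  intro n
  induction n with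
  | zero =>
    intro S h0 hS
    exact absurd (Finset.card_eq_zero.1 h0) (Finset.nonempty_iff_ne_empty.1 hS)
  | succ n ih =>
    intro S hcard hS u v huv hs hp
    -- the smallest slope
    set b := S.min' hS with hb
    have hbS : b ∈ S := S.min'_mem hS
    have hbmin : ∀ a ∈ S, b ≤ a := fun a ha => S.min'_le a ha
    rcases (S.erase b).eq_empty_or_nonempty with hE | hE
    · -- only one slope
      have hall : ∀ q, u ≤ q → q ≤ v → s q = b * q + ℓ b := by
        intro q h1 h2
        obtain ⟨a, ha, hq⟩ := (hs q h1 h2).1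
        have : a = b := by
          by_contra hne
          have : a ∈ S.erase b := Finset.mem_erase.2 ⟨hne, ha⟩
          rw [hE] at this
          exact absurd this (Finset.notMem_empty a)
        rw [← this]
        exact hq
      have h1 := hp b hbS u v le_rfl huv le_rfl hall
      push_cast
      nlinarith [(Nat.cast_nonneg n : (0 : ℝ) ≤ n)]
    · -- the point where `b` becomes active
      set f : ℕ → ℝ := fun a => (ℓ b - ℓ a) / ((a : ℝ) - b) with hf
      set t := (S.erase b).sup' hE f with ht
      have hgt : ∀ a ∈ S.erase b, (b : ℝ) < a := by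
        intro a ha
        have h1 := hbmin a (Finset.mem_of_mem_erase ha)
        have h2 := Finset.ne_of_mem_erase ha
        have h3 : b < a := lt_of_le_of_ne h1 (Ne.symm h2)
        exact_mod_cast h3
      have hright : ∀ q, t ≤ q → ∀ a ∈ S.erase b, (b : ℝ) * q + ℓ b ≤ a * q + ℓ a := by
        intro q hq a ha
        have h1 : f a ≤ q := (Finset.le_sup' f ha).trans hq
        have h2 := hgt a ha
        rw [hf] at h1
        simp only at h1
        rw [div_le_iff₀ (by linarith)] at h1
        nlinarith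
      have hleft : ∀ q, q ≤ t → ∃ a ∈ S.erase b, (a : ℝ) * q + ℓ a ≤ b * q + ℓ b := by
        intro q hq
        obtain ⟨a, ha, h1⟩ := Finset.exists_mem_eq_sup' hE f
        refine ⟨a, ha, ?_⟩
        have h2 := hgt a ha
        rw [← ht] at h1
        rw [h1, hf] at hq
        simp only at hq
        rw [le_div_iff₀ (by linarith)] at hq
        nlinarith
      have hcardE : (S.erase b).card = n := by
        rw [Finset.card_erase_of_mem hbS, hcard]
        rfl
      have hsL : ∀ q, u ≤ q → q ≤ v → q ≤ t →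
          (∃ a ∈ S.erase b, s q = a * q + ℓ a) ∧ ∀ a ∈ S.erase b, s q ≤ a * q + ℓ a := by
        intro q h1 h2 h3
        refine ⟨?_, fun a ha => (hs q h1 h2).2 a (Finset.mem_of_mem_erase ha)⟩
        obtain ⟨a, ha, hq⟩ := (hs q h1 h2).1
        by_cases hab : a = b
        · obtain ⟨a', ha', h4⟩ := hleft q h3
          refine ⟨a', ha', le_antisymm ((hs q h1 h2).2 a' (Finset.mem_of_mem_erase ha')) ?_⟩
          rw [hq, hab]
          exact h4
        · exact ⟨a, Finset.mem_erase.2 ⟨hab, ha⟩, hq⟩
      have hsR : ∀ q, u ≤ q → q ≤ v → t ≤ q → s q = b * q + ℓ b := by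
        intro q h1 h2 h3
        refine le_antisymm ((hs q h1 h2).2 b hbS) ?_
        obtain ⟨a, ha, hq⟩ := (hs q h1 h2).1
        by_cases hab : a = b
        · rw [hq, hab]
        · rw [hq]
          exact hright q h3 a (Finset.mem_erase.2 ⟨hab, ha⟩)
      rcases le_or_gt v t with hvt | hvt
      · have h1 := ih (S.erase b) hcardE hE u v huv (fun q a b' => hsL q a b' (b'.trans hvt))
          (fun a ha => hp a (Finset.mem_of_mem_erase ha))
        push_cast
        linarith
      · rcases le_or_gt t u with htu | htu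
        · have h1 := hp b hbS u v le_rfl huv le_rfl (fun q a b' => hsR q a b' (htu.trans a))
          push_cast
          nlinarith [(Nat.cast_nonneg n : (0 : ℝ) ≤ n)]
        · have h1 := ih (S.erase b) hcardE hE u t htu.le
            (fun q a b' => hsL q a (b'.trans hvt.le) b')
            (fun a ha α β g1 g2 g3 => hp a (Finset.mem_of_mem_erase ha) α β g1 g2
              (g3.trans hvt.le))
          have h2 := hp b hbS t v htu.le hvt.le le_rfl
            (fun q a b' => hsR q (htu.le.trans a) b' a)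
          push_cast
          linarith

/-- **Row XLM, covering.** -/
theorem xlm_cover (D : ℕ) (S : Finset ℕ) (hS : S.Nonempty) (hSD : ∀ a ∈ S, 1 ≤ a ∧ a ≤ D)
    (M s : ℝ → ℝ) (ℓ : ℕ → ℝ) (Q E Λ B : ℝ) (hQ : 0 ≤ Q) (hE : 0 ≤ E) (hΛ : 0 ≤ Λ) (hB : 0 ≤ B)
    (hs : ∀ q, 0 ≤ q → q ≤ Q → (∃ a ∈ S, s q = a * q + ℓ a) ∧ ∀ a ∈ S, s q ≤ a * q + ℓ a)
    (hM : ∀ u v, u ≤ v → M v - M u ≤ Λ * (v - u) + B)
    (hstep : ∀ a ∈ S, ∀ q z, 0 ≤ q → 0 ≤ z → q + z ≤ Q → s q = a * q + ℓ a →
      s (q + z) = a * (q + z) + ℓ a → M (s q + z) - M (s q) ≤ E) (n : ℕ) :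
    M (s Q) - M (s 0) ≤ D * (n * E + Λ * (D * Q) * Real.exp (-(n / D)) + B) := by
  have hD1 : (1 : ℝ) ≤ D := by
    obtain ⟨a, ha⟩ := hS
    exact_mod_cast (hSD a ha).1.trans (hSD a ha).2
  set bd : ℝ := n * E + Λ * (D * Q) * Real.exp (-(n / D)) + B with hbd
  have hbd0 : 0 ≤ bd := by positivity
  have h1 := pieces M s ℓ bd hbd0 S.card S rfl hS 0 Q hQ hs ?_
  · refine h1.trans (mul_le_mul_of_nonneg_right ?_ hbd0)
    have h2 : S ⊆ Finset.Icc 1 D := fun a ha => Finset.mem_Icc.2 (hSD a ha)
    have h3 := Finset.card_le_card h2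
    rw [Nat.card_Icc] at h3
    exact_mod_cast (by omega : S.card ≤ D)
  · intro a ha α β h0 hαβ hβ hlin
    have hσ : (1 : ℝ) ≤ a := by exact_mod_cast (hSD a ha).1
    have hσD : (a : ℝ) ≤ D := by exact_mod_cast (hSD a ha).2
    have h2 := xcov_lip M a (s β) (β - α) E Λ B hσ (by linarith) hΛ ?_ hM n
    · have e1 : s β - (a : ℝ) * (β - α) = s α := by
        rw [hlin β hαβ le_rfl, hlin α le_rfl hαβ]
        ring
      rw [e1] at h2
      refine h2.trans ?_
      rw [hbd]
      have h3 : Λ * ((a : ℝ) * (β - α)) * Real.exp (-(n / a)) ≤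
          Λ * (D * Q) * Real.exp (-(n / D)) := by
        refine mul_le_mul ?_ ?_ (Real.exp_pos _).le (by positivity)
        · refine mul_le_mul_of_nonneg_left ?_ hΛ
          exact mul_le_mul hσD (by linarith) (by linarith) (by linarith)
        · refine Real.exp_le_exp.2 ?_
          rw [neg_le_neg_iff]
          exact div_le_div_of_nonneg_left (Nat.cast_nonneg n) (by linarith) hσD
      linarith
    · intro z hz hzZ
      have h3 := hstep a ha (β - z) z (by linarith) hz (by linarith)
        (hlin (β - z) (by linarith) (by linarith)) (by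
          rw [sub_add_cancel]
          exact hlin β hαβ le_rfl)
      have e1 : s (β - z) = s β - a * z := by
        rw [hlin (β - z) (by linarith) (by linarith), hlin β hαβ le_rfl]
        ring
      rw [e1] at h3
      have e2 : s β - (a : ℝ) * z + z = s β - ((a : ℝ) - 1) * z := by ring
      rw [e2] at h3
      exact h3

end Pool.LX
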