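import Pool.Agent.H10.KAL.SVP

/-!
# LEMMA X: slopes of the Newton polygon

`lay P a` is the sum of the absolute values of the coefficients of degree `a`. If the layer `σ` of
the Taylor polynomial at a point is large and the layer `σ - 1` is small, some derivative of order
`σ - 1` is small at the point and has a large gradient there.
-/

set_option autoImplicit false

namespace Pool.LX

open Finset MvPolynomial Pool.KAL

variable {k : ℕ}

/-- Iterated partial derivatives. -/
noncomputable def dl (L : List (Fin k)) (P : MvPolynomial (Fin k) ℝ) : MvPolynomial (Fin k) ℝ :=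
  L.foldr (fun i Q => pderiv i Q) P

/-- The exponent of a list. -/
noncomputable def cnt (L : List (Fin k)) : Fin k →₀ ℕ :=
  L.foldr (fun i β => β + Finsupp.single i 1) 0

/-- The layer of degree `a`. -/
noncomputable def lay (P : MvPolynomial (Fin k) ℝ) (a : ℕ) : ℝ :=
  ∑ α ∈ P.support with α.degree = a, |coeff α P|

@[simp] lemma dl_nil (P : MvPolynomial (Fin k) ℝ) : dl [] P = P := rfl

@[simp] lemma dl_cons (i : Fin k) (L : List (Fin k)) (P : MvPolynomial (Fin k) ℝ) :
    dl (i :: L) P = pderiv i (dl L P) := rfl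

@[simp] lemma cnt_nil : cnt ([] : List (Fin k)) = 0 := rfl

@[simp] lemma cnt_cons (i : Fin k) (L : List (Fin k)) :
    cnt (i :: L) = cnt L + Finsupp.single i 1 := rfl

lemma lay_nonneg (P : MvPolynomial (Fin k) ℝ) (a : ℕ) : 0 ≤ lay P a :=
  Finset.sum_nonneg fun _ _ => abs_nonneg _

lemma abs_coeff_le_lay (P : MvPolynomial (Fin k) ℝ) (α : Fin k →₀ ℕ) :
    |coeff α P| ≤ lay P α.degree := by
  by_cases h : α ∈ P.support
  · exact Finset.single_le_sum (f := fun α => |coeff α P|) (fun _ _ => abs_nonneg _)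
      (Finset.mem_filter.2 ⟨h, rfl⟩)
  · rw [notMem_support_iff] at h
    rw [h, abs_zero]
    exact lay_nonneg P _

lemma lay_le_coefSum (P : MvPolynomial (Fin k) ℝ) (a : ℕ) : lay P a ≤ coefSum P :=
  Finset.sum_le_sum_of_subset_of_nonneg (Finset.filter_subset _ _) fun _ _ _ => abs_nonneg _

/-- The sum of the layers. -/
lemma coefSum_eq_lay (P : MvPolynomial (Fin k) ℝ) {D : ℕ} (hD : P.totalDegree ≤ D) :
    coefSum P = ∑ a ∈ Finset.range (D + 1), lay P a := by
  unfold coefSum lay
  rw [Finset.sum_fiberwise_of_maps_to (g := fun α : Fin k →₀ ℕ => α.degree)]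
  intro α hα
  rw [Finset.mem_range]
  have := le_totalDegree hα
  have h2 : α.degree ≤ P.totalDegree := this
  omega

/-- Coefficients of derivatives. -/
lemma coeff_dl (L : List (Fin k)) (P : MvPolynomial (Fin k) ℝ) (γ : Fin k →₀ ℕ) (M : ℕ)
    (hM : γ.degree + L.length ≤ M) :
    ∃ c : ℝ, 1 ≤ c ∧ c ≤ (M : ℝ) ^ L.length ∧ coeff γ (dl L P) = c * coeff (γ + cnt L) P := by
  induction L generalizing γ with
  | nil => exact ⟨1, le_rfl, by simp, by simp⟩
  | cons i L ih =>
    have hd : (γ + Finsupp.single i 1).degree = γ.degree + 1 := by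
      rw [map_add, Finsupp.degree_single]
    obtain ⟨c, h1, h2, h3⟩ := ih (γ + Finsupp.single i 1) (by
      rw [hd]
      simp only [List.length_cons] at hM
      omega)
    have hγ : γ i + 1 ≤ M := by
      have : γ i ≤ γ.degree := by
        rw [Finsupp.degree_eq_sum]
        exact Finset.single_le_sum (f := fun i => γ i) (fun _ _ => Nat.zero_le _)
          (Finset.mem_univ i)
      simp only [List.length_cons] at hM
      omega
    have hγR : (γ i : ℝ) + 1 ≤ M := by exact_mod_cast hγ
    have hγ0 : (0 : ℝ) ≤ (γ i : ℝ) := Nat.cast_nonneg _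
    refine ⟨c * ((γ i : ℝ) + 1), by nlinarith, ?_, ?_⟩
    · rw [List.length_cons, pow_succ]
      exact mul_le_mul h2 hγR (by positivity) (by positivity)
    · rw [dl_cons, coeff_pderiv, h3, cnt_cons]
      have e : γ + Finsupp.single i 1 + cnt L = γ + (cnt L + Finsupp.single i 1) := by
        rw [add_assoc, add_comm (Finsupp.single i 1) (cnt L)]
      rw [e]
      ring

lemma eval_zero_eq (P : MvPolynomial (Fin k) ℝ) : eval (fun _ => (0 : ℝ)) P = coeff 0 P := by
  have h : (fun _ : Fin k => (0 : ℝ)) = 0 := rfl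
  rw [h, MvPolynomial.eval_zero, constantCoeff_eq]

/-- Derivatives commute with shifts. -/
lemma dl_shf (L : List (Fin k)) (P : MvPolynomial (Fin k) ℝ) (x : Fin k → ℝ) :
    dl L (shf P 1 x) = shf (dl L P) 1 x := by
  induction L with
  | nil => rfl
  | cons i L ih => rw [dl_cons, ih, pderiv_shf, dl_cons, C_1, one_mul]

lemma eval_dl_shf (L : List (Fin k)) (P : MvPolynomial (Fin k) ℝ) (x : Fin k → ℝ) :
    eval (fun _ => (0 : ℝ)) (dl L (shf P 1 x)) = eval x (dl L P) := by
  rw [dl_shf, eval_shf]
  congr 2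
  funext i
  ring

/-- Every exponent is the exponent of a list. -/
lemma exists_list (β : Fin k →₀ ℕ) : ∃ L : List (Fin k), cnt L = β ∧ L.length = β.degree := by
  induction hn : β.degree generalizing β with
  | zero =>
    have : β = 0 := by
      rwa [Finsupp.degree_eq_zero_iff] at hn
    exact ⟨[], by rw [this]; rfl, by simp⟩
  | succ n ih =>
    have hne : β ≠ 0 := by
      rintro rfl
      simp at hn
    obtain ⟨i, hi⟩ := Finsupp.ne_iff.1 hne
    have hi' : 1 ≤ β i := by
      have : β i ≠ 0 := by simpa using hi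
      omega
    have hle : Finsupp.single i 1 ≤ β := by
      rw [Finsupp.single_le_iff]
      exact hi'
    have hs : (β - Finsupp.single i 1) + Finsupp.single i 1 = β := tsub_add_cancel_of_le hle
    have hd : (β - Finsupp.single i 1).degree = n := by
      have h1 := congrArg Finsupp.degree hs
      rw [map_add, Finsupp.degree_single, hn] at h1
      omega
    obtain ⟨L, h1, h2⟩ := ih _ hd
    refine ⟨i :: L, ?_, ?_⟩
    · rw [cnt_cons, h1, hs]
    · rw [List.length_cons, h2]

/-- **Row XSL.** A large layer `σ` and a small layer `σ - 1` at the point `x`: some derivative of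
order `σ - 1` is small at `x` and has a large gradient there. -/
theorem xsl (k D : ℕ) : ∃ N : ℝ, 0 < N ∧ ∀ (P : MvPolynomial (Fin k) ℝ) (x : Fin k → ℝ)
    (σ : ℕ) (κ ε : ℝ), P.totalDegree ≤ D → 1 ≤ σ → σ ≤ D → 0 < κ → κ ≤ lay (shf P 1 x) σ →
    lay (shf P 1 x) (σ - 1) ≤ ε →
    ∃ L : List (Fin k), L.length = σ - 1 ∧ |eval x (dl L P)| ≤ (D : ℝ) ^ D * ε ∧
      ∃ i, κ / N ≤ |eval x (pderiv i (dl L P))| := by
  classical
  refine ⟨(expBox (Fin k) D).card + 1, by positivity, ?_⟩
  intro P x σ κ ε hP h1 hσ hκ hlay hlow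
  set Q := shf P 1 x with hQ
  have hQD : Q.totalDegree ≤ D := (totalDegree_shf_le P 1 x).trans hP
  set N : ℝ := (expBox (Fin k) D).card + 1 with hN
  have hN0 : 0 < N := by positivity
  -- a large coefficient
  obtain ⟨α, hα1, hα2⟩ : ∃ α : Fin k →₀ ℕ, α.degree = σ ∧ κ / N ≤ |coeff α Q| := by
    by_contra hcon
    push Not at hcon
    have h2 : lay Q σ ≤ ∑ α ∈ Q.support with α.degree = σ, κ / N := by
      refine Finset.sum_le_sum fun α hα => ?_
      exact (hcon α (Finset.mem_filter.1 hα).2).le
    rw [Finset.sum_const, nsmul_eq_mul] at h2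
    have h3 : (((Q.support.filter fun α => α.degree = σ).card : ℕ) : ℝ) ≤
        (expBox (Fin k) D).card := by
      exact_mod_cast Finset.card_le_card
        ((Finset.filter_subset _ _).trans (support_subset_expBox Q D hQD))
    have h4 : 0 < κ / N := by positivity
    have h5 : κ = N * (κ / N) := by field_simp
    have h6 : (((Q.support.filter fun α => α.degree = σ).card : ℕ) : ℝ) * (κ / N) ≤
        (N - 1) * (κ / N) := by
      refine mul_le_mul_of_nonneg_right ?_ h4.le
      rw [hN]
      linarith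
    nlinarith
  have hne : α ≠ 0 := by
    rintro rfl
    simp at hα1
    omega
  obtain ⟨i, hi⟩ := Finsupp.ne_iff.1 hne
  have hi' : 1 ≤ α i := by
    have : α i ≠ 0 := by simpa using hi
    omega
  have hle : Finsupp.single i 1 ≤ α := by
    rw [Finsupp.single_le_iff]
    exact hi'
  have hs : (α - Finsupp.single i 1) + Finsupp.single i 1 = α := tsub_add_cancel_of_le hle
  have hd : (α - Finsupp.single i 1).degree = σ - 1 := by
    have h1 := congrArg Finsupp.degree hs
    rw [map_add, Finsupp.degree_single, hα1] at h1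
    omega
  obtain ⟨L, hL1, hL2⟩ := exists_list (α - Finsupp.single i 1)
  rw [hd] at hL2
  refine ⟨L, hL2, ?_, i, ?_⟩
  · rw [← eval_dl_shf, ← hQ, eval_zero_eq]
    obtain ⟨c, hc1, hc2, hc3⟩ := coeff_dl L Q 0 D (by rw [hL2]; simp; omega)
    rw [hc3, zero_add, hL1, abs_mul, abs_of_nonneg (by linarith)]
    have h2 := abs_coeff_le_lay Q (α - Finsupp.single i 1)
    rw [hd] at h2
    have h3 : c ≤ (D : ℝ) ^ D := by
      refine hc2.trans ?_
      have hD1 : (1 : ℝ) ≤ D := by exact_mod_cast h1.trans hσ
      exact pow_le_pow_right₀ hD1 (by omega)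
    have h4 : 0 ≤ ε := (lay_nonneg _ _).trans hlow
    exact mul_le_mul h3 (h2.trans hlow) (abs_nonneg _) (by positivity)
  · rw [← dl_cons, ← eval_dl_shf, ← hQ, eval_zero_eq]
    obtain ⟨c, hc1, hc2, hc3⟩ := coeff_dl (i :: L) Q 0 D (by
      rw [List.length_cons, hL2]
      simp
      omega)
    rw [hc3, zero_add, cnt_cons, hL1, hs, abs_mul, abs_of_nonneg (by linarith)]
    have := abs_nonneg (coeff α Q)
    nlinarith

/-! ### Layers under change of radius -/

lemma coeff_shf_zero (P : MvPolynomial (Fin k) ℝ) (r : ℝ) (α : Fin k →₀ ℕ) :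
    coeff α (shf P r (fun _ => 0)) = r ^ α.degree * coeff α P := by
  classical
  induction P using MvPolynomial.induction_on' with
  | monomial β c =>
    unfold shf
    rw [aeval_monomial]
    have e : (β.prod fun i n => (C (0 : ℝ) + C r * X i : MvPolynomial (Fin k) ℝ) ^ n) =
        monomial β (r ^ β.degree) := by
      simp only [C_0, zero_add, mul_pow]
      rw [Finsupp.prod_mul]
      rw [MvPolynomial.monomial_eq]
      congr 1
      rw [Finsupp.degree_eq_sum, Finsupp.prod_fintype _ _ (fun i => pow_zero _), Finset.prod_pow_eq_pow_sum, map_pow]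
    rw [e, algebraMap_eq, C_mul_monomial, coeff_monomial, coeff_monomial]
    split_ifs with h
    · rw [h]; ring
    · ring
  | add p q hp hq =>
    unfold shf at hp hq ⊢
    rw [map_add, coeff_add, hp, hq, coeff_add]
    ring

/-- The layers at radius `r`. -/
lemma lay_shf (P : MvPolynomial (Fin k) ℝ) {r : ℝ} (hr : 0 ≤ r) (x : Fin k → ℝ) (a : ℕ) :
    lay (shf P r x) a = r ^ a * lay (shf P 1 x) a := by
  classical
  have e : shf P r x = shf (shf P 1 x) r (fun _ => 0) := by
    rw [← shf_scale, one_mul]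
  rw [e]
  set Q := shf P 1 x with hQ
  have hc : ∀ α : Fin k →₀ ℕ, coeff α (shf Q r (fun _ => 0)) = r ^ α.degree * coeff α Q :=
    coeff_shf_zero Q r
  have hsub : (shf Q r (fun _ => 0)).support ⊆ Q.support := by
    intro α hα
    rw [mem_support_iff] at hα ⊢
    intro h
    exact hα (by rw [hc, h, mul_zero])
  unfold lay
  rw [Finset.mul_sum]
  have h1 : ∑ α ∈ (shf Q r (fun _ => 0)).support with α.degree = a,
      |coeff α (shf Q r (fun _ => 0))| =
      ∑ α ∈ Q.support with α.degree = a, |coeff α (shf Q r (fun _ => 0))| := by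
    refine Finset.sum_subset (Finset.filter_subset_filter _ hsub) ?_
    intro α hα hα'
    rw [Finset.mem_filter] at hα hα'
    have h2 : α ∉ (shf Q r (fun _ => 0)).support := fun h => hα' ⟨h, hα.2⟩
    rw [notMem_support_iff] at h2
    rw [h2, abs_zero]
  rw [h1]
  refine Finset.sum_congr rfl fun α hα => ?_
  rw [hc, abs_mul, abs_of_nonneg (pow_nonneg hr _), (Finset.mem_filter.1 hα).2]

end Pool.LX
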