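import Pool.Agent.H40.LX.Sh
import Pool.Agent.H40.LX.Cell

/-!
# LEMMA X: one step (Shannon part and counting together)

At the scale of a cell (given by `c`) the difference of the two labels, in cell coordinates and
normalised, is a polynomial `P ω`; from the two labels it is known up to `E 2 ^ (-j)`. If at the
point `u ω` the layer `σ` of its Taylor polynomial is at least `κ` and the layer `σ - 1` at most
`E 2 ^ (-j)`, the rows of the normal position between the precision of the difference and `j` rows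
later are full.
-/

set_option autoImplicit false

namespace Pool.LX

open Finset Real MvPolynomial Pool.KAL
open Pool.Agent.H49.Ent Pool.Agent.H32.Dense Pool.STK Pool.KA

/-- **One step of LEMMA X.** -/
theorem lx_step (k D : ℕ) (E κ Λ : ℝ) (hk : 0 < k) (hE : 0 ≤ E) (hκ : 0 < κ) (hΛ : 0 ≤ Λ) :
    ∃ K : ℝ, 0 ≤ K ∧ ∀ (Ω A B C S U V W : Type) [Fintype Ω] (p : Ω → ℝ), IsLaw p →
      ∀ (b0 : Ω → A) (b1 : Ω → B) (c : Ω → C) (x : Ω → S) (wd : Ω → U) (nc : Ω → V) (nd : Ω → W)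
        (j : ℕ) (u : Ω → Fin k → ℝ) (P : Ω → MvPolynomial (Fin k) ℝ)
        (R : B → A → C → MvPolynomial (Fin k) ℝ) (F : A → U → C → Finset V) (M₀ : ℝ),
      Det p (fun ω => (nd ω, (nc ω, (wd ω, c ω)))) x →
      (∀ ω ω', 0 < p ω → 0 < p ω' → b1 ω = b1 ω' → c ω = c ω' →
        nc ω' ∈ F (b0 ω) (wd ω') (c ω) ∧ ((F (b0 ω) (wd ω') (c ω)).card : ℝ) ≤ M₀) →
      (∀ ω, 0 < p ω → (∀ l, 0 ≤ u ω l ∧ u ω l ≤ 1) ∧ (P ω).totalDegree ≤ D ∧
        (R (b1 ω) (b0 ω) (c ω)).totalDegree ≤ D ∧ coefSum (R (b1 ω) (b0 ω) (c ω)) ≤ Λ ∧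
        coefSum (P ω - R (b1 ω) (b0 ω) (c ω)) ≤ E * ((2 : ℝ) ^ j)⁻¹ ∧
        ∃ σ, 1 ≤ σ ∧ σ ≤ D ∧ κ ≤ lay (shf (P ω) 1 (u ω)) σ ∧
          lay (shf (P ω) 1 (u ω)) (σ - 1) ≤ E * ((2 : ℝ) ^ j)⁻¹) →
      CH p x (fun ω => (b1 ω, c ω)) +
          CH p (fun ω => fun l => ⌊(2 : ℝ) ^ j * u ω l⌋) (fun ω => (b0 ω, c ω)) ≤
        CH p wd c + CH p nd (fun ω => (nc ω, (wd ω, c ω))) + ((k - 1 : ℕ) : ℝ) * (j * Real.log 2) +
          (Real.log M₀ + K + CH p b1 (fun ω => (x ω, c ω))) := by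
  classical
  obtain ⟨Cc, hCc, hcell⟩ := xcell k D E κ Λ hk hE hκ hΛ
  set K' : ℝ := max Cc 1 with hK'
  have hK1 : 1 ≤ K' := le_max_right _ _
  refine ⟨Real.log K', Real.log_nonneg hK1, ?_⟩
  intro Ω A B C S U V W _ p hp b0 b1 c x wd nc nd j u P R F M₀ hx hF hP
  set y : Ω → Fin k → ℤ := fun ω l => ⌊(2 : ℝ) ^ j * u ω l⌋ with hy
  -- compatible cells
  set good : B → A → C → (Fin k → ℤ) → Prop := fun bb aa cc n =>
    ∃ ω, 0 < p ω ∧ b1 ω = bb ∧ b0 ω = aa ∧ c ω = cc ∧ y ω = n with hgood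
  set G : B → A → C → Finset (Fin k → ℤ) := fun bb aa cc =>
    (Finset.univ.image y).filter (good bb aa cc) with hG
  have hG1 : ∀ ω, 0 < p ω → y ω ∈ G (b1 ω) (b0 ω) (c ω) := by
    intro ω hω
    rw [hG]
    exact Finset.mem_filter.2 ⟨Finset.mem_image_of_mem _ (Finset.mem_univ _), ω, hω, rfl, rfl, rfl,
      rfl⟩
  have hG2 : ∀ ω, 0 < p ω →
      ((G (b1 ω) (b0 ω) (c ω)).card : ℝ) ≤ K' * ((2 : ℝ) ^ j) ^ (k - 1) := by
    intro ω hω
    have h1 := (hP ω hω)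
    refine (hcell j (R (b1 ω) (b0 ω) (c ω)) h1.2.2.1 h1.2.2.2.1 _ ?_).trans ?_
    · intro n hn
      obtain ⟨ω', hω', e1, e2, e3, e4⟩ := (Finset.mem_filter.1 hn).2
      obtain ⟨g1, g2, g3, g4, g5, g6⟩ := hP ω' hω'
      refine ⟨u ω', g1, fun l => ?_, P ω', g2, ?_, g6⟩
      · rw [← e4]
      · rw [← e1, ← e2, ← e3]
        exact g5
    · exact mul_le_mul_of_nonneg_right (le_max_left _ _) (by positivity)
  have h := lx_shannon hp b0 b1 c x y wd nc nd hx F (fun ω ω' a b e1 e2 => (hF ω ω' a b e1 e2).1)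
    (fun ω ω' a b e1 e2 => (hF ω ω' a b e1 e2).2) G hG1 hG2
  have e1 : Real.log (K' * ((2 : ℝ) ^ j) ^ (k - 1)) =
      Real.log K' + ((k - 1 : ℕ) : ℝ) * (j * Real.log 2) := by
    rw [Real.log_mul (by positivity) (by positivity), Real.log_pow, Real.log_pow]
  rw [e1] at h
  linarith

end Pool.LX
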